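import Pool.Agent.helper12.KZ.Spec

set_option autoImplicit false

namespace Pool.Agent.KZ

open Pool.Agent.helper58.DC Pool.Agent.DI Pool.Agent.TY

theorem KWN_fixtop {A : Type} [Group A] (S : SSet A) (d : ℤ) : S.fix d ⊤ = S.num d ⊤ := by
  classical
  unfold SSet.fix SSet.num
  refine finsum_congr fun z => ?_
  have h : (∀ a ∈ (⊤ : Subgroup A), S.act a z = z) ↔ (∀ a, a ∈ (⊤ : Subgroup A) ↔ S.act a z = z) := by
    simp
  by_cases h1 : S.dfc z = d ∧ ∀ a ∈ (⊤ : Subgroup A), S.act a z = z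
  · rw [if_pos h1, if_pos ⟨h1.1, h.1 h1.2⟩]
  · rw [if_neg h1, if_neg (fun h2 => h1 ⟨h2.1, h.2 h2.2⟩)]

/-- The alternating sum for the cocycle extension. -/
theorem KWN_altSum (hCL0 : CL0_stmt) (hCL1 : CL1_stmt) (hPR : PR_stmt) (hIS : IS_stmt)
    (hPT : PT_stmt) (hSK : SK_stmt)
    (G E A L T : Type) [Group G] [Group E] [Group A] [Group L] [MulAction L T] [Finite G]
    [Fintype T] (X : Extension G E A) (c : Cocycle L T A) (p : ℕ) [Fact p.Prime]
    (M : Ideal (integralClosure ℤ ℂ)) (hop : IsOp p (⊤ : Subgroup G) ⊥) (χ : G → ℂ)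
    (hχ : χ ∈ Irr G) (hst : Stable X M χ) :
    ∃ S : SSet A, (∀ (d : ℤ) (U : Subgroup A), altSum X p M χ d U = S.num d U) ∧
      ∀ (d : ℤ) (V : Subgroup L), altSum (kext X c) p M (tens fun _ : T => χ) d V =
        (pathS S c).num d V := by
  obtain ⟨S, cls, hcls⟩ := hCL0 G E A X p M χ hχ hst
  have hχ' := (hPT G T p M χ hχ).1
  have hst' := (hSK G E A L T X c M).2.1 χ hχ hst
  obtain ⟨S', cls', hcls'⟩ := hCL0 (T → G) (KE X c) L (kext X c) p M _ hχ' hst'
  refine ⟨S, fun d U => hCL1 G E A X p M χ hχ hst S cls hcls d U, fun d V => ?_⟩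
  rw [hCL1 (T → G) (KE X c) L (kext X c) p M _ hχ' hst' S' cls' hcls' d V]
  exact (hIS L S' (pathS S c) (hPR G E A L T X c p M hop χ hχ hst S cls hcls S' cls' hcls') d V).1

/-- Sums with a condition are sums over a subtype. -/
theorem KWN_cond {Z : Type} (P : Z → Prop) [DecidablePred P] (f : Z → ℤ) :
    ∑ᶠ z : Z, (if P z then f z else 0) = ∑ᶠ z : {z : Z // P z}, f z.1 := by
  rw [finsum_subtype_eq_finsum_cond]
  refine finsum_congr fun z => ?_
  by_cases h : P z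
  · rw [if_pos h, finsum_eq_if, if_pos h]
  · rw [if_neg h, finsum_eq_if, if_neg h]

/-- `fix` as a sum over the fixed elements. -/
theorem KWN_fix {A : Type} [Group A] (S : SSet A) (d : ℤ) :
    S.fix d ⊤ = ∑ᶠ y : {z : S.Z // (∀ a, S.act a z = z) ∧ S.dfc z = d}, (-1 : ℤ) ^ S.len y.1 := by
  classical
  unfold SSet.fix
  rw [← KWN_cond (fun z : S.Z => (∀ a, S.act a z = z) ∧ S.dfc z = d) (fun z => (-1 : ℤ) ^ S.len z)]
  refine finsum_congr fun z => ?_
  by_cases h : (∀ a, S.act a z = z) ∧ S.dfc z = d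
  · rw [if_pos h, if_pos ⟨h.2, fun a _ => h.1 a⟩]
  · rw [if_neg h, if_neg (fun h2 => h ⟨fun a => h2.2 a trivial, h2.1⟩)]

/-- the divisibility of sums of products -/
theorem KWN_dvd {Y T : Type} [Fintype Y] [Fintype T] [DecidableEq T] (s δ : Y → ℤ) (n : ℤ)
    (h : ∀ e : ℤ, n ∣ ∑ y ∈ Finset.univ.filter (fun y => δ y = e), s y) (d : ℤ) :
    n ^ Fintype.card T ∣ ∑ z ∈ Finset.univ.filter (fun z : T → Y => ∑ t, δ (z t) = d), ∏ t, s (z t) := by
  classical
  set g : (T → Y) → (T → ℤ) := fun z t => δ (z t) with hg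
  set W : Finset (T → Y) := Finset.univ.filter (fun z : T → Y => ∑ t, δ (z t) = d) with hW
  have h1 : ∑ z ∈ W, ∏ t, s (z t) = ∑ e ∈ W.image g, ∑ z ∈ W.filter (fun z => g z = e), ∏ t, s (z t) :=
    (Finset.sum_fiberwise_of_maps_to (fun z hz => Finset.mem_image_of_mem g hz) _).symm
  rw [h1]
  apply Finset.dvd_sum
  intro e he
  have hde : ∑ t, e t = d := by
    rw [Finset.mem_image] at he
    obtain ⟨z, hz, rfl⟩ := he
    rw [hW, Finset.mem_filter] at hz
    exact hz.2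
  have h2 : W.filter (fun z => g z = e) =
      Fintype.piFinset (fun t => Finset.univ.filter (fun y => δ y = e t)) := by
    ext z
    rw [Finset.mem_filter, Fintype.mem_piFinset, hW, Finset.mem_filter]
    constructor
    · rintro ⟨-, hz⟩ t
      rw [Finset.mem_filter]
      exact ⟨Finset.mem_univ _, congrFun hz t⟩
    · intro hz
      have hz' : ∀ t, δ (z t) = e t := fun t => (Finset.mem_filter.1 (hz t)).2
      refine ⟨⟨Finset.mem_univ _, ?_⟩, funext hz'⟩
      rw [← hde]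
      exact Finset.sum_congr rfl fun t _ => hz' t
  rw [h2, ← Finset.prod_univ_sum]
  have h3 : n ^ Fintype.card T = ∏ _t : T, n := by
    rw [Finset.prod_const, Finset.card_univ]
  rw [h3]
  exact Finset.prod_dvd_prod_of_dvd _ _ fun t _ => h (e t)

section act
variable {l : ℕ} [Fact l.Prime] {A : Type} [Group A]

theorem KWN_smul (x : A × Tp l) (t : TT l A) : x • t = (x.2 * (show Tp l from t) : Tp l) := rfl

theorem KWN_one (a : A) (t : TT l A) : ((a, 1) : A × Tp l) • t = t := one_mul (show Tp l from t)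

theorem KWN_mv (t t' : TT l A) :
    ((1, (show Tp l from t) * (show Tp l from t')⁻¹) : A × Tp l) • t' = t :=
  inv_mul_cancel_right (show Tp l from t) (show Tp l from t')

theorem KWN_const (S : SSet A) (z : TT l A → S.Z)
    (h : ∀ x ∈ (⊤ : Subgroup (A × Tp l)), ∀ t, z (x • t) = S.act ((cW l A).κ x t) (z t)) :
    (∀ t a, S.act a (z t) = z t) ∧ ∀ t t', z t = z t' := by
  constructor
  · intro t a
    have h1 := h (a, 1) trivial t
    rw [KWN_one] at h1
    exact h1.symm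
  · intro t t'
    have h1 := h ((1, (show Tp l from t) * (show Tp l from t')⁻¹) : A × Tp l) trivial t'
    rw [KWN_mv] at h1
    have h3 : (cW l A).κ ((1, (show Tp l from t) * (show Tp l from t')⁻¹) : A × Tp l) t' = 1 := rfl
    rw [h3, map_one] at h1
    exact h1

theorem KWN_card : Fintype.card (TT l A) = l := by
  have h : Fintype.card (TT l A) = Fintype.card (Tp l) := rfl
  rw [h, Fintype.card_multiplicative, ZMod.card]

theorem KWN_top (hFX : FX_stmt) (S : SSet A) (d : ℤ) :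
    (pathS S (cW l A)).fix d ⊤ =
      ∑ᶠ y : {z : S.Z // (∀ a, S.act a z = z) ∧ (l : ℤ) * S.dfc z = d}, (-1 : ℤ) ^ S.len y.1 := by
  rw [hFX A (A × Tp l) (TT l A) S (cW l A) d ⊤]
  have hsub : ∀ O O' : MulAction.orbitRel.Quotient (⊤ : Subgroup (A × Tp l)) (TT l A), O = O' := by
    intro O O'
    induction O using Quotient.inductionOn
    induction O' using Quotient.inductionOn
    rename_i a b
    apply Quotient.sound
    refine ⟨⟨((1, (show Tp l from a) * (show Tp l from b)⁻¹) : A × Tp l), trivial⟩, ?_⟩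
    exact inv_mul_cancel_right (show Tp l from a) (show Tp l from b)
  have hsum : ∀ y : S.Z, ∑ _t : TT l A, S.dfc y = (l : ℤ) * S.dfc y := by
    intro y
    rw [Finset.sum_const, Finset.card_univ, KWN_card, nsmul_eq_mul]
  let t₀ : TT l A := (1 : Tp l)
  refine finsum_eq_of_bijective (fun z => ⟨z.1 t₀, (KWN_const S z.1 z.2.1).1 t₀, ?_⟩) ⟨?_, ?_⟩ ?_
  · rw [← hsum]
    exact (Finset.sum_congr rfl fun t _ => by rw [(KWN_const S z.1 z.2.1).2 t₀ t]).trans z.2.2
  · intro z z' h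
    apply Subtype.ext
    funext t
    rw [(KWN_const S z.1 z.2.1).2 t t₀, (KWN_const S z'.1 z'.2.1).2 t t₀]
    exact congrArg (fun u => u.1) h
  · rintro ⟨y, hy1, hy2⟩
    refine ⟨⟨fun _ => y, fun x _ t => (hy1 _).symm, ?_⟩, rfl⟩
    rw [hsum, hy2]
  · intro z
    rw [finprod_eq_single _ (Quotient.mk _ t₀) (fun O hO => absurd (hsub _ _) hO)]
    rw [(KWN_const S z.1 z.2.1).2 _ t₀]

theorem KWN_mem (x : A × Tp l) : x ∈ (⊤ : Subgroup A).prod (⊥ : Subgroup (Tp l)) ↔ x.2 = 1 := by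
  rw [Subgroup.mem_prod, Subgroup.mem_bot]
  exact ⟨fun h => h.2, fun h => ⟨trivial, h⟩⟩

theorem KWN_bot (hFX : FX_stmt) (S : SSet A) (d : ℤ) :
    (pathS S (cW l A)).fix d ((⊤ : Subgroup A).prod ⊥) =
      ∑ᶠ z : {z : TT l A → {y : S.Z // ∀ a, S.act a y = y} // ∑ t, S.dfc (z t).1 = d},
        ∏ t, (-1 : ℤ) ^ S.len (z.1 t).1 := by
  rw [hFX A (A × Tp l) (TT l A) S (cW l A) d ((⊤ : Subgroup A).prod ⊥)]
  have hfixed : ∀ z : TT l A → S.Z, (∀ x ∈ (⊤ : Subgroup A).prod (⊥ : Subgroup (Tp l)), ∀ t : TT l A,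
      z (x • t) = S.act ((cW l A).κ x t) (z t)) → ∀ t a, S.act a (z t) = z t := by
    intro z h t a
    have h1 := h (a, 1) ((KWN_mem _).2 rfl) t
    rw [KWN_one] at h1
    exact h1.symm
  have hstab : ∀ x ∈ (⊤ : Subgroup A).prod (⊥ : Subgroup (Tp l)), ∀ t : TT l A, x • t = t := by
    intro x hx t
    rw [KWN_smul, (KWN_mem x).1 hx]
    exact one_mul (show Tp l from t)
  have hout : ∀ t : TT l A, (Quotient.mk (MulAction.orbitRel
      ((⊤ : Subgroup A).prod (⊥ : Subgroup (Tp l))) (TT l A)) t).out = t := by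
    intro t
    obtain ⟨⟨x, hx⟩, h2⟩ := Quotient.mk_out (s := MulAction.orbitRel
      ((⊤ : Subgroup A).prod (⊥ : Subgroup (Tp l))) (TT l A)) t
    have h3 : x • t = (Quotient.mk (MulAction.orbitRel
      ((⊤ : Subgroup A).prod (⊥ : Subgroup (Tp l))) (TT l A)) t).out := h2
    rw [← h3]
    exact hstab x hx t
  refine finsum_eq_of_bijective (fun z => ⟨fun t => ⟨z.1 t, hfixed z.1 z.2.1 t⟩, z.2.2⟩) ⟨?_, ?_⟩ ?_
  · intro z z' h
    apply Subtype.ext
    funext t
    have h1 := congrArg (fun u => (u.1 t).1) h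
    exact h1
  · rintro ⟨z, hz⟩
    refine ⟨⟨fun t => (z t).1, fun x hx t => ?_, hz⟩, rfl⟩
    show (z (x • t)).1 = S.act _ (z t).1
    rw [hstab x hx t, (z t).2]
  · intro z
    show ∏ᶠ O : MulAction.orbitRel.Quotient ((⊤ : Subgroup A).prod (⊥ : Subgroup (Tp l))) (TT l A),
      (-1 : ℤ) ^ S.len (z.1 O.out) = ∏ t, (-1 : ℤ) ^ S.len (z.1 t)
    rw [← finprod_eq_prod_of_fintype]
    symm
    refine finprod_eq_of_bijective (fun t => Quotient.mk (MulAction.orbitRel
      ((⊤ : Subgroup A).prod (⊥ : Subgroup (Tp l))) (TT l A)) t) ⟨?_, ?_⟩ ?_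
    · intro t t' h
      have := congrArg Quotient.out h
      simp only at this
      rwa [hout, hout] at this
    · intro O
      exact ⟨O.out, Quotient.out_eq O⟩
    · intro t
      rw [hout]

theorem KWN_above (V : Subgroup (A × Tp l)) (h : (⊤ : Subgroup A).prod (⊥ : Subgroup (Tp l)) ≤ V) :
    V = (⊤ : Subgroup A).prod ⊥ ∨ V = ⊤ := by
  have hprime : Fact (Nat.card (Tp l)).Prime := ⟨by
    rw [Nat.card_eq_fintype_card, Fintype.card_multiplicative, ZMod.card]
    exact Fact.out⟩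
  have hmem : ∀ (a : A) (t : Tp l), (a, t) ∈ V ↔ t ∈ V.map (MonoidHom.snd A (Tp l)) := by
    intro a t
    constructor
    · intro h1
      exact ⟨(a, t), h1, rfl⟩
    · rintro ⟨⟨b, t'⟩, h1, h2⟩
      have h3 : t' = t := h2
      subst h3
      have h4 : ((a * b⁻¹, 1) : A × Tp l) ∈ V := h ((KWN_mem _).2 rfl)
      have h5 := V.mul_mem h4 h1
      have h6 : ((a * b⁻¹, 1) : A × Tp l) * (b, t') = (a, t') := by
        apply Prod.ext
        · exact inv_mul_cancel_right a b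
        · exact one_mul t'
      rwa [h6] at h5
  rcases Subgroup.eq_bot_or_eq_top_of_prime_card (V.map (MonoidHom.snd A (Tp l))) with h1 | h1
  · left
    ext ⟨a, t⟩
    rw [hmem a t, h1, KWN_mem, Subgroup.mem_bot]
  · right
    ext ⟨a, t⟩
    rw [hmem a t, h1]
    exact ⟨fun _ => trivial, fun _ => trivial⟩

theorem KWN_ne : (⊤ : Subgroup A).prod (⊥ : Subgroup (Tp l)) ≠ ⊤ := by
  intro h
  have hl : 1 < Fintype.card (Tp l) := by
    rw [Fintype.card_multiplicative, ZMod.card]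
    exact (Fact.out : l.Prime).one_lt
  obtain ⟨t, ht⟩ := Fintype.exists_ne_of_one_lt_card hl (1 : Tp l)
  have h1 : ((1, t) : A × Tp l) ∈ (⊤ : Subgroup A).prod (⊥ : Subgroup (Tp l)) := by
    rw [h]
    trivial
  exact ht ((KWN_mem _).1 h1)

theorem KWN_mb (hMB : MB_stmt) [Finite A] (S : SSet (A × Tp l)) (d : ℤ) :
    S.fix d ((⊤ : Subgroup A).prod ⊥) = S.num d ((⊤ : Subgroup A).prod ⊥) + S.num d ⊤ := by
  classical
  rw [hMB (A × Tp l) S d ((⊤ : Subgroup A).prod ⊥)]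
  rw [finsum_eq_sum_of_support_subset (s := {⟨(⊤ : Subgroup A).prod ⊥, le_refl _⟩, ⟨⊤, le_top⟩})]
  · rw [Finset.sum_pair]
    intro h
    exact KWN_ne (congrArg (fun u => u.1) h)
  · rintro ⟨V, hV⟩ _
    rcases KWN_above V hV with h | h
    · subst h
      simp
    · subst h
      simp

end act

theorem KWN (hCL0 : CL0_stmt) (hCL1 : CL1_stmt) (hPR : PR_stmt) (hIS : IS_stmt)
    (hPT : PT_stmt) (hSK : SK_stmt) (hMB : MB_stmt) (hFX : FX_stmt) : KWN_stmt := by
  classical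
  intro p l _ _ M G E A _ _ _ _ _ X hop χ hχ hst
  obtain ⟨S, hS1, hS2⟩ := KWN_altSum hCL0 hCL1 hPR hIS hPT hSK G E A (A × Tp l) (TT l A) X (cW l A)
    p M hop χ hχ hst
  have hA : Finite A := (hSK G E A (A × Tp l) (TT l A) X (cW l A) M).2.2.2 inferInstance
  have hfin := S.fin
  have hl0 : (l : ℤ) ≠ 0 := by
    exact_mod_cast (Fact.out : l.Prime).ne_zero
  refine ⟨?_, ?_, ?_⟩
  · intro e
    rw [hS1, hS2, ← KWN_fixtop, ← KWN_fixtop, KWN_top hFX, KWN_fix]
    refine finsum_eq_of_bijective (fun z => ⟨z.1, z.2.1, ?_⟩) ⟨?_, ?_⟩ ?_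
    · exact mul_left_cancel₀ hl0 z.2.2
    · intro z z' h
      exact Subtype.ext (congrArg (fun u => u.1) h)
    · rintro ⟨y, hy1, hy2⟩
      exact ⟨⟨y, hy1, by rw [hy2]⟩, rfl⟩
    · intro z
      rfl
  · intro d hd
    rw [hS2, ← KWN_fixtop, KWN_top hFX]
    have : IsEmpty {z : S.Z // (∀ a, S.act a z = z) ∧ (l : ℤ) * S.dfc z = d} :=
      ⟨fun z => hd ⟨_, z.2.2.symm⟩⟩
    exact finsum_of_isEmpty _
  · intro n hn d
    rw [hS2, hS2, ← KWN_mb hMB, KWN_bot hFX]
    have := Fintype.ofFinite S.Z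
    have := Fintype.ofFinite {y : S.Z // ∀ a, S.act a y = y}
    have h1 := KWN_dvd (T := TT l A) (fun y : {y : S.Z // ∀ a, S.act a y = y} => (-1 : ℤ) ^ S.len y.1)
      (fun y => S.dfc y.1) n (by
        intro e
        have h2 := hn e
        rw [hS1, ← KWN_fixtop, KWN_fix] at h2
        have h3 : ∑ᶠ y : {z : S.Z // (∀ a, S.act a z = z) ∧ S.dfc z = e}, (-1 : ℤ) ^ S.len y.1 =
            ∑ y ∈ Finset.univ.filter (fun y : {y : S.Z // ∀ a, S.act a y = y} => S.dfc y.1 = e),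
              (-1 : ℤ) ^ S.len y.1 := by
          rw [Finset.sum_filter, ← finsum_eq_sum_of_fintype,
            KWN_cond (fun y : {y : S.Z // ∀ a, S.act a y = y} => S.dfc y.1 = e)
              (fun y => (-1 : ℤ) ^ S.len y.1)]
          refine finsum_eq_of_bijective (fun z => ⟨⟨z.1, z.2.1⟩, z.2.2⟩) ⟨?_, ?_⟩ ?_
          · intro z z' h
            exact Subtype.ext (congrArg (fun u => u.1.1) h)
          · rintro ⟨⟨y, hy1⟩, hy2⟩
            exact ⟨⟨y, hy1, hy2⟩, rfl⟩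
          · intro z
            rfl
        rwa [h3] at h2) d
    rw [KWN_card] at h1
    have h4 : ∑ᶠ z : {z : TT l A → {y : S.Z // ∀ a, S.act a y = y} // ∑ t, S.dfc (z t).1 = d},
        ∏ t, (-1 : ℤ) ^ S.len (z.1 t).1 =
        ∑ z ∈ Finset.univ.filter (fun z : TT l A → {y : S.Z // ∀ a, S.act a y = y} =>
          ∑ t, S.dfc (z t).1 = d), ∏ t, (-1 : ℤ) ^ S.len (z t).1 := by
      rw [← KWN_cond (fun z : TT l A → {y : S.Z // ∀ a, S.act a y = y} => ∑ t, S.dfc (z t).1 = d)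
        (fun z => ∏ t, (-1 : ℤ) ^ S.len (z t).1)]
      rw [finsum_eq_sum_of_fintype, Finset.sum_filter]
    rw [h4]
    exact h1

end Pool.Agent.KZ
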